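import Mathlib

/-!
# The realisable frustration parameters are the angles with rational squared tangent
-/

open Real

namespace Pool.Agent.Results.MP_7aff4e_co.RealisableAngles

/-- The number of neighbours of `v` in the set `S`. -/
noncomputable def dIn {V : Type} (G : SimpleGraph V) (S : Set V) (v : V) : ℕ :=
  (G.neighborSet v ∩ S).ncard

/-- The bipartition `V = S ∪ Sᶜ` is equitable: the numbers of neighbours in `S` and in `Sᶜ` are
constant on `S` and constant on `Sᶜ`. -/
def Equitable {V : Type} (G : SimpleGraph V) (S : Set V) : Prop :=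
  (∀ i ∈ S, ∀ j ∈ S, dIn G S i = dIn G S j ∧ dIn G Sᶜ i = dIn G Sᶜ j) ∧
  (∀ i ∈ Sᶜ, ∀ j ∈ Sᶜ, dIn G S i = dIn G S j ∧ dIn G Sᶜ i = dIn G Sᶜ j)

/-- The linear degree condition with parameters `(μ₁, μ₂, r)` for the bipartition `S₁ = S`,
`S₂ = Sᶜ`. -/
def LinearDegree {V : Type} (G : SimpleGraph V) (S : Set V) (μ₁ μ₂ r : ℝ) : Prop :=
  (∀ i ∈ S, -(dIn G S i : ℝ) + μ₁ * (dIn G Sᶜ i : ℝ) = r) ∧
  (∀ j ∈ Sᶜ, -(dIn G Sᶜ j : ℝ) + μ₂ * (dIn G S j : ℝ) = r)

/-- `α` is realisable: `α ∈ (0, π/2)` and there are a finite connected graph with a non-equitable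
bipartition into two non-empty parts and `μ₁ > μ₂`, `|μ₁ + μ₂| < 2`, `r` such that the linear
degree condition with `(μ₁, μ₂, r)` holds and `α = arctan (√(4 - (μ₁ + μ₂)²) / (μ₁ - μ₂))`. -/
def Realisable (α : ℝ) : Prop :=
  0 < α ∧ α < π / 2 ∧ ∃ (V : Type) (_ : Finite V) (G : SimpleGraph V) (S : Set V) (μ₁ μ₂ r : ℝ),
    G.Connected ∧ S.Nonempty ∧ Sᶜ.Nonempty ∧ ¬ Equitable G S ∧ LinearDegree G S μ₁ μ₂ r ∧
    |μ₁ + μ₂| < 2 ∧ μ₂ < μ₁ ∧ α = arctan (√(4 - (μ₁ + μ₂) ^ 2) / (μ₁ - μ₂))

/-! ### Necessity -/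

/-- some vertex of the complement has a neighbour in `S` -/
lemma exists_edge {V : Type} {G : SimpleGraph V} (hG : G.Connected) {S : Set V} (hS : S.Nonempty)
    (hS' : Sᶜ.Nonempty) : ∃ i ∈ S, ∃ j ∈ Sᶜ, G.Adj i j := by
  by_contra hcon
  push Not at hcon
  obtain ⟨i, hi⟩ := hS
  obtain ⟨j, hj⟩ := hS'
  obtain ⟨p⟩ := hG i j
  have hstep : ∀ x y : V, G.Walk x y → x ∈ S → y ∈ S := by
    intro x y p
    induction p with
    | nil => exact id
    | cons h p ih =>
      intro hx
      apply ih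
      by_contra hy
      exact hcon _ hx _ hy h
  exact hj (hstep i j p hi)

/-- if the degrees are not constant on a part then its `μ` and `r` are rational -/
lemma rational_of_ne {a b c d : ℕ} {μ r : ℝ} (h1 : -(a : ℝ) + μ * b = r)
    (h2 : -(c : ℝ) + μ * d = r) (h : ¬ (a = c ∧ b = d)) : ∃ q s : ℚ, μ = q ∧ r = s := by
  have hbd : (b : ℝ) ≠ d := by
    intro hbd
    apply h
    have : (a : ℝ) = c := by
      rw [hbd] at h1
      linarith
    exact ⟨by exact_mod_cast this, by exact_mod_cast hbd⟩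
  have hne : (b : ℝ) - d ≠ 0 := sub_ne_zero.mpr hbd
  have hμ : μ = ((a : ℝ) - c) / (b - d) := by
    rw [eq_div_iff hne]
    linarith
  refine ⟨((a : ℚ) - c) / (b - d), -(a : ℚ) + ((a : ℚ) - c) / (b - d) * b, ?_, ?_⟩
  · rw [hμ]
    push_cast
    rfl
  · rw [← h1, hμ]
    push_cast
    rfl

/-- if `μ`'s coefficient is non-zero somewhere, a rational `r` gives a rational `μ` -/
lemma rational_of_pos {a b : ℕ} {μ r : ℝ} {s : ℚ} (h1 : -(a : ℝ) + μ * b = r) (hr : r = s)
    (hb : b ≠ 0) : ∃ q : ℚ, μ = q := by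
  have hb' : (b : ℝ) ≠ 0 := by exact_mod_cast hb
  refine ⟨(s + a) / b, ?_⟩
  push_cast
  rw [eq_div_iff hb', ← hr]
  linarith

lemma rational_of_realisable {α : ℝ} (h : Realisable α) : ∃ q : ℚ, tan α ^ 2 = q := by
  obtain ⟨h0, h1, V, _, G, S, μ₁, μ₂, r, hG, hS, hS', hne, hL, habs, hlt, hα⟩ := h
  obtain ⟨i, hi, j, hj, hij⟩ := exists_edge hG hS hS'
  have hi' : dIn G Sᶜ i ≠ 0 := by
    unfold dIn
    exact Set.ncard_ne_zero_of_mem (a := j) ⟨hij, hj⟩ (Set.toFinite _)
  have hj' : dIn G S j ≠ 0 := by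
    unfold dIn
    exact Set.ncard_ne_zero_of_mem (a := i) ⟨hij.symm, hi⟩ (Set.toFinite _)
  obtain ⟨q₁, q₂, hq₁, hq₂⟩ : ∃ q₁ q₂ : ℚ, μ₁ = q₁ ∧ μ₂ = q₂ := by
    unfold Equitable at hne
    rw [not_and_or] at hne
    rcases hne with hne | hne
    · push Not at hne
      obtain ⟨u, hu, v, hv, huv⟩ := hne
      obtain ⟨q, s, hq, hs⟩ := rational_of_ne (hL.1 u hu) (hL.1 v hv) (fun h => huv h.1 h.2)
      obtain ⟨q', hq'⟩ := rational_of_pos (hL.2 j hj) hs hj'
      exact ⟨q, q', hq, hq'⟩
    · push Not at hne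
      obtain ⟨u, hu, v, hv, huv⟩ := hne
      obtain ⟨q, s, hq, hs⟩ := rational_of_ne (hL.2 u hu) (hL.2 v hv) (fun h => huv h.2 h.1)
      obtain ⟨q', hq'⟩ := rational_of_pos (hL.1 i hi) hs hi'
      exact ⟨q', q, hq', hq⟩
  refine ⟨(4 - (q₁ + q₂) ^ 2) / (q₁ - q₂) ^ 2, ?_⟩
  rw [hα, tan_arctan, div_pow, sq_sqrt, hq₁, hq₂]
  · push_cast
    rfl
  · have h2 : (μ₁ + μ₂) ^ 2 < 2 ^ 2 := sq_lt_sq' (abs_lt.mp habs).1 (abs_lt.mp habs).2
    linarith

/-! ### The construction -/

variable (x k D : ℕ)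

/-- adjacency of the graph -/
def adj : Fin (x + 1) × Option (Bool × Fin D) → Fin (x + 1) × Option (Bool × Fin D) → Prop
  | (i, none), (j, none) => i ≠ j
  | (i, none), (j, some (_, l)) => i = j ∧ l.val < k
  | (i, some (_, l)), (j, none) => i = j ∧ l.val < k
  | (i, some (b, l)), (j, some (b', l')) => i = j ∧ b ≠ b' ∧ ¬ (l = l' ∧ l.val < k)

/-- A complete graph on `x + 1` vertices; with every vertex `i` of it comes a `K_{D,D}` minus a
matching of `k` edges, whose `2 k` vertices of degree `D - 1` are joined to `i`. -/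
def Gr : SimpleGraph (Fin (x + 1) × Option (Bool × Fin D)) where
  Adj := adj x k D
  symm := ⟨by
    rintro ⟨i, _ | ⟨b, l⟩⟩ ⟨j, _ | ⟨b', l'⟩⟩ h
    · exact Ne.symm h
    · exact ⟨h.1.symm, h.2⟩
    · exact ⟨h.1.symm, h.2⟩
    · refine ⟨h.1.symm, h.2.1.symm, ?_⟩
      rintro ⟨h1, h2⟩
      exact h.2.2 ⟨h1.symm, h1 ▸ h2⟩⟩
  loopless := ⟨by
    rintro ⟨i, _ | ⟨b, l⟩⟩ h
    · exact h rfl
    · exact h.2.1 rfl⟩

/-- the part `S₁` -/
def part : Set (Fin (x + 1) × Option (Bool × Fin D)) := {p | p.2 = none}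

lemma some_mem (i : Fin (x + 1)) (p : Bool × Fin D) : (i, some p) ∈ (part x D)ᶜ := by
  intro h
  exact Option.some_ne_none _ h

lemma d1_none (i : Fin (x + 1)) : dIn (Gr x k D) (part x D) (i, none) = x := by
  classical
  unfold dIn
  have h : (Gr x k D).neighborSet (i, none) ∩ part x D =
      (((Finset.univ.erase i).image fun j => (j, (none : Option (Bool × Fin D)))) :
        Finset (Fin (x + 1) × Option (Bool × Fin D))) := by
    ext ⟨j, o⟩
    simp only [Finset.coe_image, Set.mem_image, Finset.mem_coe, Finset.mem_erase,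
      Finset.mem_univ, and_true, Set.mem_inter_iff, SimpleGraph.mem_neighborSet]
    constructor
    · rintro ⟨h1, h2⟩
      have h2' : o = none := h2
      subst h2'
      exact ⟨j, Ne.symm h1, rfl⟩
    · rintro ⟨j', h1, h2⟩
      obtain ⟨rfl, rfl⟩ := Prod.mk.inj h2
      exact ⟨Ne.symm h1, rfl⟩
  rw [h, Set.ncard_coe_finset, Finset.card_image_of_injective, Finset.card_erase_of_mem
    (Finset.mem_univ _), Finset.card_univ, Fintype.card_fin, Nat.add_sub_cancel]
  intro a b h
  exact (Prod.mk.inj h).1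

lemma d2_none (hk : k ≤ D) (i : Fin (x + 1)) :
    dIn (Gr x k D) (part x D)ᶜ (i, none) = 2 * k := by
  classical
  unfold dIn
  have h : (Gr x k D).neighborSet (i, none) ∩ (part x D)ᶜ =
      (((Finset.univ ×ˢ (Finset.univ.filter fun l : Fin D => l.val < k)).image
        fun p : Bool × Fin D => (i, some p)) : Finset (Fin (x + 1) × Option (Bool × Fin D))) := by
    ext ⟨j, o⟩
    simp only [Finset.coe_image, Set.mem_image, Finset.mem_coe, Finset.mem_product,
      Finset.mem_filter, Finset.mem_univ, true_and, Set.mem_inter_iff, Set.mem_compl_iff,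
      SimpleGraph.mem_neighborSet]
    constructor
    · rintro ⟨h1, h2⟩
      rcases o with _ | ⟨b, l⟩
      · exact absurd rfl h2
      · obtain ⟨rfl, h3⟩ := h1
        exact ⟨(b, l), h3, rfl⟩
    · rintro ⟨⟨b, l⟩, h1, h2⟩
      obtain ⟨rfl, rfl⟩ := Prod.mk.inj h2
      exact ⟨⟨rfl, h1⟩, some_mem x D _ _⟩
  rw [h, Set.ncard_coe_finset, Finset.card_image_of_injective, Finset.card_product,
    Finset.card_univ, Fintype.card_bool, Fin.card_filter_val_lt, min_eq_right hk]
  intro a b h
  exact Option.some.inj (Prod.mk.inj h).2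

lemma d1_some (i : Fin (x + 1)) (b : Bool) (l : Fin D) :
    dIn (Gr x k D) (part x D) (i, some (b, l)) = if l.val < k then 1 else 0 := by
  classical
  unfold dIn
  split_ifs with hl
  · rw [Set.ncard_eq_one]
    refine ⟨(i, none), ?_⟩
    ext ⟨j, o⟩
    constructor
    · rintro ⟨h1, h2⟩
      have h2' : o = none := h2
      subst h2'
      obtain ⟨rfl, _⟩ := h1
      rfl
    · intro h
      obtain ⟨rfl, rfl⟩ := Prod.mk.inj (show (j, o) = (i, none) from h)
      exact ⟨⟨rfl, hl⟩, rfl⟩
  · rw [Set.ncard_eq_zero]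
    ext ⟨j, o⟩
    constructor
    · rintro ⟨h1, h2⟩
      have h2' : o = none := h2
      subst h2'
      exact absurd h1.2 hl
    · intro h
      exact h.elim

lemma d2_some (i : Fin (x + 1)) (b : Bool) (l : Fin D) :
    dIn (Gr x k D) (part x D)ᶜ (i, some (b, l)) = if l.val < k then D - 1 else D := by
  classical
  unfold dIn
  have h : (Gr x k D).neighborSet (i, some (b, l)) ∩ (part x D)ᶜ =
      (((Finset.univ.filter fun l' : Fin D => ¬ (l = l' ∧ l.val < k)).image
        fun l' => (i, some (!b, l'))) : Finset (Fin (x + 1) × Option (Bool × Fin D))) := by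
    ext ⟨j, o⟩
    simp only [Finset.coe_image, Set.mem_image, Finset.mem_coe,
      Finset.mem_filter, Finset.mem_univ, true_and, Set.mem_inter_iff, Set.mem_compl_iff,
      SimpleGraph.mem_neighborSet]
    constructor
    · rintro ⟨h1, h2⟩
      rcases o with _ | ⟨b', l'⟩
      · exact absurd rfl h2
      · obtain ⟨rfl, h3, h4⟩ := h1
        refine ⟨l', h4, ?_⟩
        have : b' = !b := by
          cases b <;> cases b' <;> simp at h3 ⊢
        rw [this]
    · rintro ⟨l', h1, h2⟩
      obtain ⟨rfl, rfl⟩ := Prod.mk.inj h2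
      refine ⟨⟨rfl, ?_, h1⟩, some_mem x D _ _⟩
      cases b <;> simp
  rw [h, Set.ncard_coe_finset, Finset.card_image_of_injective]
  · split_ifs with hl
    · have : (Finset.univ.filter fun l' : Fin D => ¬ (l = l' ∧ l.val < k)) =
          Finset.univ.erase l := by
        ext l'
        simp only [Finset.mem_filter, Finset.mem_univ, true_and, Finset.mem_erase, and_true]
        constructor
        · rintro h1 rfl
          exact h1 ⟨rfl, hl⟩
        · rintro h1 ⟨rfl, _⟩
          exact h1 rfl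
      rw [this, Finset.card_erase_of_mem (Finset.mem_univ _), Finset.card_univ, Fintype.card_fin]
    · have : (Finset.univ.filter fun l' : Fin D => ¬ (l = l' ∧ l.val < k)) = Finset.univ := by
        ext l'
        simp [hl]
      rw [this, Finset.card_univ, Fintype.card_fin]
  · intro a c h
    exact (Prod.mk.inj (Option.some.inj (Prod.mk.inj h).2)).2

lemma connected (hk : 1 ≤ k) (hkD : k < D) : (Gr x k D).Connected := by
  have h0 : ∀ p, (Gr x k D).Reachable (0, none) p := by
    have h1 : ∀ i, (Gr x k D).Reachable (0, none) (i, none) := by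
      intro i
      by_cases hi : i = 0
      · subst hi
        exact SimpleGraph.Reachable.refl _
      · exact SimpleGraph.Adj.reachable (G := Gr x k D) (u := (0, none)) (v := (i, none))
          (Ne.symm hi)
    have h2 : ∀ i b (l : Fin D), l.val < k → (Gr x k D).Reachable (0, none) (i, some (b, l)) := by
      intro i b l hl
      exact (h1 i).trans (SimpleGraph.Adj.reachable (G := Gr x k D) (u := (i, none))
        (v := (i, some (b, l))) ⟨rfl, hl⟩)
    rintro ⟨i, _ | ⟨b, l⟩⟩
    · exact h1 i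
    · by_cases hl : l.val < k
      · exact h2 i b l hl
      · refine (h2 i (!b) ⟨0, by omega⟩ (by show 0 < k; omega)).trans
          (SimpleGraph.Adj.reachable (G := Gr x k D) (u := (i, some (!b, ⟨0, by omega⟩)))
            (v := (i, some (b, l))) ⟨rfl, ?_, ?_⟩)
        · cases b <;> simp
        · rintro ⟨h3, h4⟩
          rw [← h3] at hl
          exact hl h4
  have : Nonempty (Fin (x + 1) × Option (Bool × Fin D)) := ⟨(0, none)⟩
  exact ⟨fun p q => (h0 p).symm.trans (h0 q)⟩

lemma not_equitable (hk : 1 ≤ k) (hkD : k < D) : ¬ Equitable (Gr x k D) (part x D) := by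
  intro h
  have h1 := (h.2 (0, some (false, ⟨0, by omega⟩)) (some_mem x D _ _)
    (0, some (false, ⟨k, hkD⟩)) (some_mem x D _ _)).1
  rw [d1_some, d1_some, if_pos (by show 0 < k; omega), if_neg (by simp)] at h1
  omega

lemma linearDegree (hk : 1 ≤ k) (hkD : k < D) :
    LinearDegree (Gr x k D) (part x D) (((x : ℝ) - D) / (2 * k)) (-1) (-(D : ℝ)) := by
  have hk' : (0 : ℝ) < k := by exact_mod_cast hk
  constructor
  · rintro ⟨i, o⟩ hi
    have hi' : o = none := hi
    subst hi'
    rw [d1_none, d2_none x k D hkD.le]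
    push_cast
    field_simp
    ring
  · rintro ⟨i, o⟩ hi
    rcases o with _ | ⟨b, l⟩
    · exact absurd rfl hi
    · rw [d1_some, d2_some]
      split_ifs with hl
      · rw [Nat.cast_sub (by omega)]
        push_cast
        ring
      · push_cast
        ring

/-! ### The theorem -/

/-- **The realisable `α` are exactly the `α ∈ (0, π/2)` for which `tan² α` is rational.** -/
theorem result : {α : ℝ | Realisable α} =
    {α : ℝ | 0 < α ∧ α < π / 2 ∧ ∃ q : ℚ, tan α ^ 2 = q} := by
  ext α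
  constructor
  · intro h
    exact ⟨h.1, h.2.1, rational_of_realisable h⟩
  · rintro ⟨h0, h1, q, hq⟩
    have htan : 0 < tan α := tan_pos_of_pos_of_lt_pi_div_two h0 h1
    have hq0 : 0 < q := by
      have : (0 : ℝ) < q := by
        rw [← hq]
        positivity
      exact_mod_cast this
    -- `q = a / b`
    set a : ℕ := q.num.toNat with ha
    set b : ℕ := q.den with hb
    have ha0 : 0 < a := by
      have : 0 < q.num := Rat.num_pos.mpr hq0
      omega
    have hb0 : 0 < b := q.den_pos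
    have hqab : (q : ℝ) = (a : ℝ) / b := by
      have h2 : ((a : ℤ) : ℚ) = q.num := by
        rw [ha, Int.toNat_of_nonneg (Rat.num_pos.mpr hq0).le]
      have h3 : q = (a : ℚ) / b := by
        rw [hb]
        conv_lhs => rw [← Rat.num_div_den q]
        rw [← h2]
        rfl
      rw [h3]
      push_cast
      rfl
    have ha' : (0 : ℝ) < a := by exact_mod_cast ha0
    have hb' : (0 : ℝ) < b := by exact_mod_cast hb0
    set x := 8 * b + 1 with hx
    set k := a + b with hk
    set D := 2 * (a + b) + 1 with hD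
    have hk1 : 1 ≤ k := by omega
    have hkD : k < D := by omega
    have hμ : ((x : ℝ) - D) / (2 * k) = (3 * b - a) / (a + b) := by
      rw [hx, hk, hD]
      push_cast
      rw [div_eq_div_iff (by positivity) (by positivity)]
      ring
    refine ⟨h0, h1, Fin (x + 1) × Option (Bool × Fin D), inferInstance, Gr x k D, part x D,
      ((x : ℝ) - D) / (2 * k), -1, -(D : ℝ), connected x k D hk1 hkD, ⟨(0, none), rfl⟩,
      ⟨(0, some (false, ⟨0, by omega⟩)), some_mem x D _ _⟩,
      not_equitable x k D hk1 hkD, linearDegree x k D hk1 hkD, ?_, ?_, ?_⟩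
    · rw [hμ, abs_lt]
      constructor
      · rw [← sub_eq_add_neg, lt_sub_iff_add_lt, lt_div_iff₀ (by positivity)]
        linarith
      · rw [← sub_eq_add_neg, sub_lt_iff_lt_add, div_lt_iff₀ (by positivity)]
        linarith
    · rw [hμ, lt_div_iff₀ (by positivity)]
      linarith
    · rw [hμ]
      have e1 : (3 * (b : ℝ) - a) / (a + b) - -1 = 4 * b / (a + b) := by
        field_simp
        ring
      have e2 : 4 - ((3 * (b : ℝ) - a) / (a + b) + -1) ^ 2 = (4 * b / (a + b)) ^ 2 * (a / b) := by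
        field_simp
        ring
      have e3 : (0 : ℝ) < 4 * b / (a + b) := by positivity
      rw [e1, e2, sqrt_mul (sq_nonneg _), sqrt_sq e3.le, mul_div_assoc, mul_comm, div_mul_cancel₀ _ e3.ne',
        ← hqab, ← hq, sqrt_sq htan.le, arctan_tan (by linarith) h1]

end Pool.Agent.Results.MP_7aff4e_co.RealisableAngles
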